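import Pool.Agent.H480R2.LS.Expo

/-!
MP_141f81_co: a formula for the growth exponent of `(n,k,L)`-systems, and the exact order of growth when
the supremum in it is attained.

* `mm n k L` is the largest size of a family of `k`-subsets of an `n`-set whose distinct members meet in
  a number of elements lying in `L` (the same expression as in the frozen statement).
* `ES k L` is the set of the numbers `log |R| / log n`, `n ≥ 2`, over all nonempty relations
  `R ⊆ [n]^k` whose agreement sets `{i : f i = g i}` (`f ≠ g` in `R`) belong to a family `T` of subsets of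
  `[k]` that is closed under intersection and all of whose members have a cardinality in `L`.
-/

set_option autoImplicit false

namespace Pool.Agent.Results.MP_141f81_co.ExponentFormula

open Pool.Agent.H480R2.LS

theorem result (k : ℕ) (L : Finset ℕ) (hne : L.Nonempty) (hL : L ⊆ Finset.range k) :
    ∃ α : ℝ, 1 ≤ α ∧
      Filter.Tendsto (fun n : ℕ => Real.log (mm n k L) / Real.log n) Filter.atTop (nhds α) ∧
      IsLUB (ES k L) α ∧
      (α ∈ ES k L → Asymptotics.IsTheta Filter.atTop
        (fun n : ℕ => (mm n k L : ℝ)) (fun n : ℕ => (n:ℝ) ^ α)) ∧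
      (∃ C : ℕ, ∀ n : ℕ, k ≤ n → mm (2 * n) k L ≤ C * mm n k L) := by
  have hk : 1 ≤ k := by
    obtain ⟨l, hl⟩ := hne
    have := Finset.mem_range.mp (hL hl)
    omega
  refine ⟨expo k L, one_le_expo hne hL, tendsto_expo hk hne hL,
    isLUB_csSup ⟨1, one_mem_ES hne hL⟩ (ES_bdd k L), ?_,
    ⟨KK k L * (4 * k) ^ k, fun n hn => mm_double hk hL hn⟩⟩
  intro hmem
  obtain ⟨c, hc, h⟩ := le_mm_of_mem (L := L) hk hmem le_rfl
  constructor
  · apply Asymptotics.IsBigO.of_bound (KK k L)
    filter_upwards [Filter.eventually_ge_atTop 1] with n hn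
    have h1 := mm_le (n := n) hk hL hn
    rw [Real.norm_of_nonneg (by positivity), Real.norm_of_nonneg (by positivity)]
    exact h1
  · apply Asymptotics.IsBigO.of_bound c⁻¹
    filter_upwards [Filter.eventually_ge_atTop k] with n hn
    have h1 := h n hn
    rw [Real.norm_of_nonneg (by positivity), Real.norm_of_nonneg (by positivity)]
    rw [← div_eq_inv_mul, le_div_iff₀ hc]
    linarith

end Pool.Agent.Results.MP_141f81_co.ExponentFormula
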